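import Pool.Agent.helper78.TQ6.Six

/-!
# Every 2-queue graph is 6-colourable
-/

set_option autoImplicit false

/-- Every finite graph whose vertices can be ordered and whose edges can be split into two classes, with
no two strictly nested edges in the same class, has a proper vertex colouring with six colours. -/
theorem Pool.Agent.Results.MP_a4b273_co.SixColourable.result :
    ∀ (n : ℕ) (G : SimpleGraph (Fin n)),
      (∃ q : Fin n → Fin n → Fin 2,
        ∀ a b c d : Fin n, a < b → b < c → c < d →
          G.Adj a d → G.Adj b c → q a d ≠ q b c) →
      G.Colorable 6 :=
  fun n G h => Pool.Agent.helper97.TQ6.six n G h
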